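import Mathlib
import Pool.Agent.R856.JO3

/-!
# The Jameson-Ono congruence

For every prime `p > 3`,
`∑_{k=0}^{(p-1)/2} C(2k,k)^3 (H_{2k} - H_k) ≡ 0 (mod p)`.

Idea of the proof: deform the summand to
`y_k(X) = ∏_{j ≤ k} 8 (2j-1+2X)^3 / (j+X)^3` over `ZMod p`, whose `X`-derivative at `0` is
`6 C(2k,k)^3 (H_{2k} - H_k)`.  A Wilf-Zeilberger pair, summed over a full period mod `p`, gives
`∑_{k<p} (21 (k+X) + 8) y_k(X) ≡ 21 X (mod X^3)`.  On the other hand, the coefficient of `X^2` in
`∑_{i+j=n} y_i(X) y_j(-X)` vanishes for every `n < p` (orthogonality relation for the symmetric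
square differential equation), and so does the one with weight `j - X`.  Together these force the
coefficient of `X` in `∑_{k<p} y_k(X)` to vanish.
-/

namespace Pool.Agent.Results.MP_8625e1_nt.JamesonOno

open Finset Pool.Agent.R856.JO

/-- The harmonic number `H_n = ∑_{j=1}^n 1/j`. -/
def H (n : ℕ) : ℚ := ∑ j ∈ Finset.Icc 1 n, (1 : ℚ) / j

/-- The sum `S(p) = ∑_{k=0}^{(p-1)/2} C(2k,k)^3 (H_{2k} - H_k)`. -/
def S (p : ℕ) : ℚ :=
  ∑ k ∈ Finset.range ((p - 1) / 2 + 1), ((2 * k).choose k : ℚ) ^ 3 * (H (2 * k) - H k)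

/-- **Jameson-Ono**: for every prime `p > 3` the numerator (in lowest terms) of `S(p)` is
divisible by `p`. -/
theorem result (p : ℕ) (hp : p.Prime) (h3 : 3 < p) : (p : ℤ) ∣ (S p).num := by
  by_cases h7 : p = 7
  · subst h7
    have : S 7 = 15190 / 3 := by
      unfold S H
      norm_num [Finset.sum_range_succ, Finset.sum_Icc_succ_top, Nat.choose]
    rw [this]
    norm_num
  · have := Fact.mk hp
    have hp5 : 5 ≤ p := by
      rcases Nat.lt_or_ge p 5 with h | h
      · interval_cases p
        exact absurd hp (by norm_num)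
      · exact h
    obtain ⟨m, hm⟩ : ∃ m, p = 2 * m + 1 := by
      rcases hp.eq_two_or_odd' with h | ⟨m, hm⟩
      · omega
      · exact ⟨m, hm⟩
    have hmm : (p - 1) / 2 = m := by omega
    have hv := zmod_vanish_ne7 (p := p) hp5 h7 hm
    set N : ℤ := ∑ k ∈ range (m + 1), ((2 * k).choose k : ℤ) ^ 3 *
      (hI (p - 1).factorial (2 * k) - hI (p - 1).factorial k) with hN
    have hNz : (N : ZMod p) = 0 := by
      have : (N : ZMod p) = ((p - 1).factorial : ZMod p) *
          ∑ k ∈ range (m + 1), (Nat.centralBinom k : ZMod p) ^ 3 * (hf p (2 * k) - hf p k) := by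
        rw [hN, Finset.mul_sum]
        push_cast
        apply Finset.sum_congr rfl
        intro k hk
        rw [mem_range] at hk
        rw [hI_zmod (2 * k) (by omega), hI_zmod k (by omega), Nat.centralBinom_eq_two_mul_choose]
        ring
      rw [this, hv, mul_zero]
    have hNq : (N : ℚ) = ((p - 1).factorial : ℚ) * S p := by
      unfold S H
      rw [hN, hmm, Finset.mul_sum]
      push_cast
      apply Finset.sum_congr rfl
      intro k hk
      rw [mem_range] at hk
      rw [hI_rat (p := p) (2 * k) (by omega), hI_rat (p := p) k (by omega)]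
      ring
    have hdvd : (p : ℤ) ∣ N := (ZMod.intCast_zmod_eq_zero_iff_dvd N p).mp hNz
    have hkey : N * ((S p).den : ℤ) = ((p - 1).factorial : ℤ) * (S p).num := by
      have h1 : (S p) * (S p).den = (S p).num := Rat.mul_den_eq_num (S p)
      have h2 : (N : ℚ) * ((S p).den : ℚ) = ((p - 1).factorial : ℚ) * ((S p).num : ℚ) := by
        rw [hNq, ← h1]; ring
      exact_mod_cast h2
    have h4 : (p : ℤ) ∣ ((p - 1).factorial : ℤ) * (S p).num := by
      rw [← hkey]; exact Dvd.dvd.mul_right hdvd _
    have hpi : Prime (p : ℤ) := Nat.prime_iff_prime_int.mp hp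
    rcases hpi.dvd_or_dvd h4 with h5 | h5
    · exfalso
      have h6 : p ∣ (p - 1).factorial := by exact_mod_cast h5
      rw [hp.dvd_factorial] at h6
      omega
    · exact h5

end Pool.Agent.Results.MP_8625e1_nt.JamesonOno
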